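import Pool.Agent.R812.MetAnalog

/-!
# Metric analogs and quasimetrizability
-/

set_option autoImplicit false

namespace Pool.Agent.Results.MP_d44cd8_gt.MetricAnalogs

open Pool.Agent.R812.MetAnalog

universe u v

/-- (a) fails: some `T0` based space has a metric analog and is not quasimetrizable;
(b) holds: every quasimetrizable `T0` based space has a metric analog. -/
theorem result :
    (∃ (X : Type) (_ : TopologicalSpace X) (x₀ : X),
      T0Space X ∧ HasMetricAnalog.{0, v} X x₀ ∧ ¬ Quasimetrizable X) ∧
    (∀ (X : Type u) [TopologicalSpace X] [T0Space X] (x₀ : X),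
      Quasimetrizable X → HasMetricAnalog.{u, v} X x₀) :=
  ⟨⟨Pt, inferInstance, Pt.t 0, inferInstance, Pt.hasMetricAnalog_Pt _, Pt.not_quasi⟩,
    fun _ _ _ x₀ h => quasi h x₀⟩

end Pool.Agent.Results.MP_d44cd8_gt.MetricAnalogs
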